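import Pool.Agent.H204.CS.Stm

/-!
# Project CS: the volume of the hyperbolic ball
-/

set_option autoImplicit false

namespace Pool.Agent.H204.CS.P_H3VOL

open MeasureTheory Topology Pool.Agent.H204.CS

theorem d1_lt {R : ℝ} (hR : 0 ≤ R) (y : ℝ × ℂ) :
    d1 0 y < R ↔ Complex.normSq y.2 < 2 * Real.cosh R - 2 * Real.cosh y.1 := by
  have h1 : d1 0 y = Real.arcosh (Real.cosh y.1 + Complex.normSq y.2 / 2) := by
    unfold d1
    simp
  have h2 : 1 ≤ Real.cosh y.1 + Complex.normSq y.2 / 2 := by
    have h3 := Real.one_le_cosh y.1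
    have h4 := Complex.normSq_nonneg y.2
    linarith
  have h3 : R = Real.arcosh (Real.cosh R) := (Real.arcosh_cosh hR).symm
  have h4 : d1 0 y < R ↔ Real.cosh y.1 + Complex.normSq y.2 / 2 < Real.cosh R := by
    conv_lhs => rw [h1, h3]
    exact Real.arcosh_lt_arcosh (by linarith) (Real.cosh_pos R)
  rw [h4]
  constructor <;> intro h <;> linarith

theorem vol_disc (c : ℝ) :
    volume {w : ℂ | Complex.normSq w < c} = ENNReal.ofReal (Real.pi * c) := by
  rcases le_or_gt c 0 with hc | hc
  · have h1 : {w : ℂ | Complex.normSq w < c} = ∅ := by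
      ext w
      simp only [Set.mem_ofPred_eq, Set.mem_empty_iff_false, iff_false, not_lt]
      exact hc.trans (Complex.normSq_nonneg w)
    rw [h1, measure_empty, ENNReal.ofReal_of_nonpos]
    exact mul_nonpos_of_nonneg_of_nonpos Real.pi_pos.le hc
  · have h1 : {w : ℂ | Complex.normSq w < c} = Metric.ball 0 (Real.sqrt c) := by
      ext w
      rw [Set.mem_ofPred_eq, mem_ball_zero_iff, Complex.normSq_eq_norm_sq,
        Real.lt_sqrt (norm_nonneg w)]
    rw [h1, Complex.volume_ball, ← ENNReal.ofReal_pow (Real.sqrt_nonneg c), Real.sq_sqrt hc.le,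
      mul_comm Real.pi, ENNReal.ofReal_mul hc.le]
    congr 1
    rw [← NNReal.coe_real_pi, ENNReal.ofReal_coe_nnreal]

theorem integral_val (R : ℝ) :
    ∫ t in (-R)..R, Real.exp t * (Real.pi * (2 * Real.cosh R - 2 * Real.cosh t)) =
      Real.pi * (Real.sinh (2 * R) - 2 * R) := by
  have h1 : ∀ t ∈ Set.uIcc (-R) R, HasDerivAt
      (fun t => Real.pi * (2 * Real.cosh R * Real.exp t - (Real.exp (2 * t) / 2 + t)))
      (Real.exp t * (Real.pi * (2 * Real.cosh R - 2 * Real.cosh t))) t := by
    intro t _
    have h2 : HasDerivAt (fun t : ℝ => Real.exp (2 * t)) (Real.exp (2 * t) * 2) t := by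
      have := ((hasDerivAt_id t).const_mul 2).exp
      simpa using this
    have h3 := ((Real.hasDerivAt_exp t).const_mul (2 * Real.cosh R)).sub
      ((h2.div_const 2).add (hasDerivAt_id t))
    have h4 := h3.const_mul Real.pi
    refine h4.congr_deriv ?_
    have h5 : Real.exp t * (2 * Real.cosh t) = Real.exp (2 * t) + 1 := by
      rw [Real.cosh_eq, two_mul t, Real.exp_add]
      have : Real.exp t * Real.exp (-t) = 1 := by rw [← Real.exp_add, add_neg_cancel, Real.exp_zero]
      linear_combination this
    linear_combination Real.pi * h5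
  rw [intervalIntegral.integral_eq_sub_of_hasDerivAt h1
    (Continuous.intervalIntegrable (by fun_prop) _ _)]
  have h6 : Real.exp (2 * R) - Real.exp (2 * -R) = 2 * Real.sinh (2 * R) := by
    rw [Real.sinh_eq]
    have : 2 * -R = -(2 * R) := by ring
    rw [this]
    ring
  have h7 : 2 * Real.cosh R * (Real.exp R - Real.exp (-R)) = 2 * Real.sinh (2 * R) := by
    rw [Real.sinh_two_mul, Real.sinh_eq R]
    ring
  linear_combination Real.pi * h7 - Real.pi / 2 * h6

theorem main : S_H3VOL := by
  intro R hR
  set S : Set (ℝ × ℂ) :=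
    {y | Complex.normSq y.2 < 2 * Real.cosh R - 2 * Real.cosh y.1} with hS
  have hSo : IsOpen S := by
    refine isOpen_lt ?_ ?_
    · exact Complex.continuous_normSq.comp continuous_snd
    · exact continuous_const.sub (continuous_const.mul (Real.continuous_cosh.comp continuous_fst))
  have h1 : {y | d1 0 y < R} = S := by
    ext y
    exact d1_lt hR y
  have hmeas : Measurable fun y : ℝ × ℂ => ENNReal.ofReal (Real.exp y.1) :=
    ENNReal.measurable_ofReal.comp (Real.measurable_exp.comp measurable_fst)
  rw [h1, vol1, withDensity_apply _ hSo.measurableSet, ← lintegral_indicator hSo.measurableSet,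
    Measure.volume_eq_prod, lintegral_prod _ (hmeas.indicator hSo.measurableSet).aemeasurable]
  have h2 : ∀ t : ℝ, ∫⁻ w : ℂ, S.indicator (fun y => ENNReal.ofReal (Real.exp y.1)) (t, w) =
      (Set.Icc (-R) R).indicator (fun t => ENNReal.ofReal
        (Real.exp t * (Real.pi * (2 * Real.cosh R - 2 * Real.cosh t)))) t := by
    intro t
    have h3 : (fun w : ℂ => S.indicator (fun y => ENNReal.ofReal (Real.exp y.1)) (t, w)) =
        {w : ℂ | Complex.normSq w < 2 * Real.cosh R - 2 * Real.cosh t}.indicator
          (fun _ => ENNReal.ofReal (Real.exp t)) := by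
      funext w
      by_cases hw : Complex.normSq w < 2 * Real.cosh R - 2 * Real.cosh t
      · rw [Set.indicator_of_mem (show (t, w) ∈ S from hw), Set.indicator_of_mem]
        exact hw
      · rw [Set.indicator_of_notMem (show (t, w) ∉ S from hw), Set.indicator_of_notMem]
        exact hw
    rw [h3, lintegral_indicator_const, vol_disc, ← ENNReal.ofReal_mul (Real.exp_pos t).le]
    · by_cases ht : t ∈ Set.Icc (-R) R
      · rw [Set.indicator_of_mem ht]
      · rw [Set.indicator_of_notMem ht, ENNReal.ofReal_of_nonpos]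
        have h5 : |R| < |t| := by
          rw [abs_of_nonneg hR]
          by_contra hcon
          push Not at hcon
          exact ht (abs_le.1 hcon)
        have h6 : Real.cosh R < Real.cosh t := Real.cosh_lt_cosh.2 h5
        have h7 : Real.pi * (2 * Real.cosh R - 2 * Real.cosh t) ≤ 0 :=
          mul_nonpos_of_nonneg_of_nonpos Real.pi_pos.le (by linarith)
        exact mul_nonpos_of_nonneg_of_nonpos (Real.exp_pos t).le h7
    · exact (isOpen_lt Complex.continuous_normSq continuous_const).measurableSet
  rw [lintegral_congr h2, lintegral_indicator measurableSet_Icc, ← ofReal_integral_eq_lintegral_ofReal]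
  · rw [integral_Icc_eq_integral_Ioc, ← intervalIntegral.integral_of_le (by linarith),
      integral_val R]
  · exact (Continuous.continuousOn (by fun_prop)).integrableOn_Icc
  · rw [Filter.EventuallyLE, ae_restrict_iff' measurableSet_Icc]
    refine Filter.Eventually.of_forall fun t ht => ?_
    have h6 : Real.cosh t ≤ Real.cosh R := by
      rw [Real.cosh_le_cosh, abs_of_nonneg hR]
      exact abs_le.2 ht
    have h7 : 0 ≤ 2 * Real.cosh R - 2 * Real.cosh t := by linarith
    show (0 : ℝ) ≤ _
    have := Real.pi_pos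
    have := Real.exp_pos t
    positivity

end Pool.Agent.H204.CS.P_H3VOL
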